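import Pool.Agent.Run7.h570.GH.Iface

/-!
# Lines of linear forms (piece PSupp of the project on graph hypersurfaces)
-/

set_option autoImplicit false
set_option linter.unusedSectionVars false

open CategoryTheory AlgebraicGeometry MvPolynomial Pool.Agent.Y116.UV Pool.Agent.Z125.UN
  Pool.Agent.Q282.UZ Run7.h570.GH

namespace Run7.h611.GH

variable {R : Type} [CommRing R]

lemma q_congr {P : Sch R → Prop} {σ : Type} {S T : Fam R σ}
    (h : ∀ (K : Type) [Field K] [Algebra R K] (x : σ → K), S K x ↔ T K x) (hS : Q P S) : Q P T := by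
  obtain ⟨κ, G, w, h1, h2⟩ := hS
  exact ⟨κ, G, w, fun K _ _ x => (h K x).symm.trans (h1 K x), h2⟩

lemma rep_congr {σ : Type} {S T : Fam R σ}
    (h : ∀ (K : Type) [Field K] [Algebra R K] (x : σ → K), S K x ↔ T K x) (hS : Rep S) : Rep T := by
  obtain ⟨κ, G, w, h1⟩ := hS
  exact ⟨κ, G, w, fun K _ _ x => (h K x).symm.trans (h1 K x)⟩

lemma rep_of_q {P : Sch R → Prop} {σ : Type} {S : Fam R σ} (h : Q P S) : Rep S := by
  obtain ⟨κ, G, w, h1, _⟩ := h
  exact ⟨κ, G, w, h1⟩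

lemma rep_zero {σ ι : Type} {S : Fam R σ} (hS : Rep S) (e : ι → MvPolynomial σ R) :
    Rep (R := R) (fun K _ _ (x : σ → K) => S K x ∧ ∀ i, aeval x (e i) = 0) := by
  obtain ⟨κ, G, w, h⟩ := hS
  refine ⟨κ ⊕ ι, Sum.elim G e, w, fun K _ _ x => ?_⟩
  beta_reduce
  rw [h K x]
  simp only [Sum.forall, Sum.elim_inl, Sum.elim_inr]
  tauto

lemma rep_ne {σ : Type} {S : Fam R σ} (hS : Rep S) (e : MvPolynomial σ R) :
    Rep (R := R) (fun K _ _ (x : σ → K) => S K x ∧ aeval x e ≠ 0) := by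
  obtain ⟨κ, G, w, h⟩ := hS
  refine ⟨κ, G, w * e, fun K _ _ x => ?_⟩
  beta_reduce
  rw [h K x, map_mul, mul_ne_zero_iff]
  tauto

lemma rep_subst {σ τ : Type} {S : Fam R τ} (hS : Rep S) (φ : τ → MvPolynomial σ R) :
    Rep (R := R) (fun K _ _ (x : σ → K) => S K fun t => aeval x (φ t)) := by
  obtain ⟨κ, G, w, h⟩ := hS
  refine ⟨κ, fun k => bind₁ φ (G k), bind₁ φ w, fun K _ _ x => ?_⟩
  beta_reduce
  rw [h K]
  simp only [aeval_bind₁]

section maps

variable {σ V : Type} [Fintype V] [DecidableEq V]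

/-- the points of `PairFam` with `v = 0` on `T` and `v q ≠ 0` -/
def CF (S : Fam R (σ ⊕ V)) (J T : Finset V) (q : V) : Fam R ((σ ⊕ V) ⊕ V) :=
  fun K _ _ x => (PairFam S J K x ∧ ∀ l ∈ T, x (Sum.inl (Sum.inr l)) = 0) ∧
    x (Sum.inl (Sum.inr q)) ≠ 0

/-- the points of `SuppFam`, free coordinates and a nonzero coordinate -/
def BF (S : Fam R (σ ⊕ V)) (J T : Finset V) (q : V) :
    Fam R (((σ ⊕ V) ⊕ {l // l ∈ J.erase q}) ⊕ Unit) :=
  fun K _ _ x => SuppFam S q T ∅ K (fun s => x (Sum.inl (Sum.inl s))) ∧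
    ∀ t : Unit, x (Sum.inr t) ≠ 0

/-- from `CF` to `BF` -/
def fm (J : Finset V) (q : V) (K : Type) [Field K] (x : (σ ⊕ V) ⊕ V → K) :
    ((σ ⊕ V) ⊕ {l // l ∈ J.erase q}) ⊕ Unit → K
  | Sum.inl (Sum.inl (Sum.inl s)) => x (Sum.inl (Sum.inl s))
  | Sum.inl (Sum.inl (Sum.inr l)) => x (Sum.inl (Sum.inr l)) / x (Sum.inl (Sum.inr q))
  | Sum.inl (Sum.inr l) => x (Sum.inr l.1)
  | Sum.inr _ => 1 / x (Sum.inl (Sum.inr q))

/-- from `BF` to `CF` -/
def gm (J : Finset V) (q : V) (K : Type) [Field K]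
    (y : ((σ ⊕ V) ⊕ {l // l ∈ J.erase q}) ⊕ Unit → K) : (σ ⊕ V) ⊕ V → K
  | Sum.inl (Sum.inl s) => y (Sum.inl (Sum.inl (Sum.inl s)))
  | Sum.inl (Sum.inr l) => y (Sum.inl (Sum.inl (Sum.inr l))) / y (Sum.inr ())
  | Sum.inr l => if h : l ∈ J.erase q then y (Sum.inl (Sum.inr ⟨l, h⟩)) else
      if l = q then y (Sum.inr ()) - ∑ m : {l // l ∈ J.erase q},
        y (Sum.inl (Sum.inr m)) * y (Sum.inl (Sum.inl (Sum.inr m.1))) else 0

lemma sum_split {K : Type} [Field K] (J : Finset V) (q : V) (hq : q ∈ J) (F : V → K)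
    (hF : ∀ l, l ∉ J → F l = 0) : ∑ l, F l = F q + ∑ m : {l // l ∈ J.erase q}, F m.1 := by
  have h1 : ∑ l, F l = ∑ l ∈ J, F l :=
    (Finset.sum_subset (Finset.subset_univ J) fun l _ hl => hF l hl).symm
  rw [h1, ← Finset.add_sum_erase J F hq]
  congr 1
  exact (Finset.sum_coe_sort (J.erase q) F).symm

variable {S : Fam R (σ ⊕ V)} {J T : Finset V} {q : V}

lemma fm_rg (t : ((σ ⊕ V) ⊕ {l // l ∈ J.erase q}) ⊕ Unit) :
    Rg (CF S J T q) fun K _ _ x => fm J q K x t := by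
  rcases t with ((s | l) | l) | u
  · exact ⟨X (Sum.inl (Sum.inl s)), 1, fun K _ _ x hx => by simp [fm]⟩
  · exact ⟨X (Sum.inl (Sum.inr l)), X (Sum.inl (Sum.inr q)), fun K _ _ x hx => by
      have h := hx.2
      simp [fm, h]⟩
  · exact ⟨X (Sum.inr l.1), 1, fun K _ _ x hx => by simp [fm]⟩
  · exact ⟨1, X (Sum.inl (Sum.inr q)), fun K _ _ x hx => by
      have h := hx.2
      simp [fm, h]⟩

lemma gm_rg (t : (σ ⊕ V) ⊕ V) : Rg (BF S J T q) fun K _ _ x => gm J q K x t := by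
  rcases t with (s | l) | l
  · exact ⟨X (Sum.inl (Sum.inl (Sum.inl s))), 1, fun K _ _ x hx => by simp [gm]⟩
  · exact ⟨X (Sum.inl (Sum.inl (Sum.inr l))), X (Sum.inr ()), fun K _ _ x hx => by
      have h := hx.2 ()
      simp [gm, h]⟩
  · by_cases h : l ∈ J.erase q
    · exact ⟨X (Sum.inl (Sum.inr ⟨l, h⟩)), 1, fun K _ _ x hx => by simp only [gm, dif_pos h]; simp⟩
    · by_cases h' : l = q
      · exact ⟨X (Sum.inr ()) - ∑ m : {l // l ∈ J.erase q},
          X (Sum.inl (Sum.inr m)) * X (Sum.inl (Sum.inl (Sum.inr m.1))), 1, fun K _ _ x hx => by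
          simp only [gm, dif_neg h, if_pos h']
          simp⟩
      · exact ⟨0, 1, fun K _ _ x hx => by simp only [gm, dif_neg h, if_neg h']; simp⟩

lemma fm_mem (hS : Homog S) (K : Type) [Field K] [Algebra R K] (x : (σ ⊕ V) ⊕ V → K)
    (hx : CF S J T q K x) : BF S J T q K (fm J q K x) := by
  obtain ⟨⟨⟨h1, h2, h3⟩, h4⟩, h5⟩ := hx
  refine ⟨⟨?_, ?_, ?_, by simp⟩, fun _ => ?_⟩
  · have h6 := hS K _ (1 / x (Sum.inl (Sum.inr q))) (one_div_ne_zero h5) h1
    convert h6 using 1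
    funext s
    rcases s with s | l
    · rfl
    · simp only [fm, Sum.elim_inr]
      rw [one_div, div_eq_mul_inv, mul_comm]
  · simp only [fm]
    exact div_self h5
  · intro l hl
    simp only [fm]
    rw [h4 l hl, _root_.zero_div]
  · simp only [fm]
    exact one_div_ne_zero h5

lemma gm_mem (hS : Homog S) (hq : q ∈ J) (K : Type) [Field K] [Algebra R K]
    (y : ((σ ⊕ V) ⊕ {l // l ∈ J.erase q}) ⊕ Unit → K)
    (hy : BF S J T q K y) : CF S J T q K (gm J q K y) := by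
  obtain ⟨⟨h1, h2, h3, -⟩, h4⟩ := hy
  have h5 := h4 ()
  replace h2 : y (Sum.inl (Sum.inl (Sum.inr q))) = 1 := h2
  replace h3 : ∀ l ∈ T, y (Sum.inl (Sum.inl (Sum.inr l))) = 0 := h3
  refine ⟨⟨⟨?_, ?_, ?_⟩, ?_⟩, ?_⟩
  · have h6 := hS K _ (1 / y (Sum.inr ())) (one_div_ne_zero h5) h1
    convert h6 using 1
    funext s
    rcases s with s | l
    · rfl
    · simp only [gm, Sum.elim_inr]
      rw [one_div, div_eq_mul_inv, mul_comm]
  · intro l hl
    have h6 : l ∉ J.erase q := fun h => hl (Finset.mem_of_mem_erase h)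
    have h7 : l ≠ q := fun h => hl (h ▸ hq)
    simp only [gm, dif_neg h6, if_neg h7]
  · rw [sum_split J q hq]
    · have h6 : ∀ m : {l // l ∈ J.erase q}, gm J q K y (Sum.inr m.1) *
          gm J q K y (Sum.inl (Sum.inr m.1)) =
          (y (Sum.inl (Sum.inr m)) * y (Sum.inl (Sum.inl (Sum.inr m.1)))) / y (Sum.inr ()) := by
        intro m
        simp only [gm, dif_pos m.2]
        rw [mul_div_assoc]
      rw [Finset.sum_congr rfl fun m _ => h6 m, ← Finset.sum_div]
      have h7 : gm J q K y (Sum.inr q) = y (Sum.inr ()) - ∑ m : {l // l ∈ J.erase q},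
          y (Sum.inl (Sum.inr m)) * y (Sum.inl (Sum.inl (Sum.inr m.1))) := by
        simp only [gm, dif_neg (Finset.notMem_erase q J), if_pos]
      have h8 : gm J q K y (Sum.inl (Sum.inr q)) = 1 / y (Sum.inr ()) := by
        simp only [gm]
        rw [h2]
      rw [h7, h8]
      field_simp
      ring
    · intro l hl
      have h6 : l ∉ J.erase q := fun h => hl (Finset.mem_of_mem_erase h)
      have h7 : l ≠ q := fun h => hl (h ▸ hq)
      simp only [gm, dif_neg h6, if_neg h7, zero_mul]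
  · intro l hl
    simp only [gm]
    rw [h3 l hl, _root_.zero_div]
  · simp only [gm]
    rw [h2]
    exact one_div_ne_zero h5

lemma gm_fm (hq : q ∈ J) (K : Type) [Field K] [Algebra R K] (x : (σ ⊕ V) ⊕ V → K)
    (hx : CF S J T q K x) : gm J q K (fm J q K x) = x := by
  obtain ⟨⟨⟨h1, h2, h3⟩, h4⟩, h5⟩ := hx
  funext t
  rcases t with (s | l) | l
  · rfl
  · simp only [gm, fm]
    field_simp
  · by_cases h : l ∈ J.erase q
    · simp only [gm, dif_pos h, fm]
    · by_cases h' : l = q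
      · subst h'
        simp only [gm, dif_neg h, fm, if_true]
        rw [sum_split J l hq] at h3
        · have h6 : ∑ m : {m // m ∈ J.erase l}, x (Sum.inr m.1) *
              (x (Sum.inl (Sum.inr m.1)) / x (Sum.inl (Sum.inr l))) =
              (∑ m : {m // m ∈ J.erase l}, x (Sum.inr m.1) * x (Sum.inl (Sum.inr m.1))) /
                x (Sum.inl (Sum.inr l)) := by
            rw [Finset.sum_div]
            exact Finset.sum_congr rfl fun m _ => by rw [mul_div_assoc]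
          rw [h6]
          field_simp
          rw [← h3]
          ring
        · intro m hm
          rw [h2 m hm, zero_mul]
      · have h6 : l ∉ J := fun hl => h (Finset.mem_erase.2 ⟨h', hl⟩)
        simp only [gm, dif_neg h, if_neg h']
        exact (h2 l h6).symm

lemma fm_gm (K : Type) [Field K] [Algebra R K]
    (y : ((σ ⊕ V) ⊕ {l // l ∈ J.erase q}) ⊕ Unit → K)
    (hy : BF S J T q K y) : fm J q K (gm J q K y) = y := by
  obtain ⟨⟨h1, h2, h3, -⟩, h4⟩ := hy
  have h5 := h4 ()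
  replace h2 : y (Sum.inl (Sum.inl (Sum.inr q))) = 1 := h2
  replace h3 : ∀ l ∈ T, y (Sum.inl (Sum.inl (Sum.inr l))) = 0 := h3
  funext t
  rcases t with ((s | l) | l) | u
  · rfl
  · simp only [fm, gm]
    rw [h2]
    field_simp
  · simp only [fm, gm, dif_pos l.2]
  · simp only [fm, gm]
    rw [h2]
    field_simp

variable {P : Sch R → Prop}

lemma q_bf [Finite σ] (hP : Kit P) : Q P (BF S J T q) ↔ Q P (SuppFam S q T ∅) :=
  (hP.torus (τ := Unit) (fun K _ _ (x : (σ ⊕ V) ⊕ {l // l ∈ J.erase q} → K) =>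
    SuppFam S q T ∅ K fun s => x (Sum.inl s))).trans (hP.line _)

lemma rep_cf (h : Rep (PairFam S J)) : Rep (CF S J T q) := by
  refine rep_congr ?_ (rep_ne (rep_zero h fun l : {l // l ∈ T} => X (Sum.inl (Sum.inr l.1)))
    (X (Sum.inl (Sum.inr q))))
  intro K _ _ x
  simp only [CF, aeval_X, Subtype.forall]

lemma rep_bf (h : Rep (SuppFam S q T ∅)) : Rep (BF S J T q) := by
  refine rep_congr ?_ (rep_ne (rep_subst h
    fun s => (X (Sum.inl (Sum.inl s)) :
      MvPolynomial (((σ ⊕ V) ⊕ {l // l ∈ J.erase q}) ⊕ Unit) R)) (X (Sum.inr ())))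
  intro K _ _ x
  simp only [BF, aeval_X]
  constructor
  · rintro ⟨a, b⟩
    exact ⟨a, fun _ => b⟩
  · rintro ⟨a, b⟩
    exact ⟨a, b ()⟩

lemma q_cf [Finite σ] (hP : Kit P) (hS : Homog S) (hq : q ∈ J) (h : Rep (PairFam S J))
    (hQ : Q P (SuppFam S q T ∅)) : Q P (CF S J T q) := by
  obtain ⟨κ, G, w, hI⟩ := rep_cf (T := T) (q := q) h
  exact ⟨κ, G, w, hI, hP.iso (BF S J T q) (CF S J T q) (fun K _ _ => gm J q K)
    (fun K _ _ => fm J q K) gm_rg fm_rg (fun K _ _ y hy => gm_mem hS hq K y hy)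
    (fun K _ _ x hx => fm_mem hS K x hx) (fun K _ _ y hy => fm_gm K y hy)
    (fun K _ _ x hx => gm_fm hq K x hx) ((q_bf hP).2 hQ) G w hI⟩

lemma q_supp_of [Finite σ] (hP : Kit P) (hS : Homog S) (hq : q ∈ J) (h : Rep (SuppFam S q T ∅))
    (hQ : Q P (CF S J T q)) : Q P (SuppFam S q T ∅) := by
  obtain ⟨κ, G, w, hI⟩ := rep_bf (J := J) h
  refine (q_bf (J := J) hP).1 ⟨κ, G, w, hI, hP.iso (CF S J T q) (BF S J T q) (fun K _ _ => fm J q K)
    (fun K _ _ => gm J q K) fm_rg gm_rg (fun K _ _ x hx => fm_mem hS K x hx)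
    (fun K _ _ y hy => gm_mem hS hq K y hy) (fun K _ _ x hx => gm_fm hq K x hx)
    (fun K _ _ y hy => fm_gm K y hy) hQ G w hI⟩

lemma rep_supp (h : Rep (PairFam S {q})) : Rep (SuppFam S q T ∅) := by
  refine rep_congr ?_ (rep_zero (rep_subst h
    (Sum.elim X fun l => if l = q then 1 else 0)) fun l : {l // l ∈ T} => X (Sum.inr l.1))
  intro K _ _ x
  have h1 : (fun t : (σ ⊕ V) ⊕ V => aeval x ((Sum.elim X fun l => if l = q then 1 else 0 :
      (σ ⊕ V) ⊕ V → MvPolynomial (σ ⊕ V) R) t)) = Sum.elim x fun l => if l = q then 1 else 0 := by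
    funext t
    rcases t with t | l
    · simp
    · by_cases hl : l = q <;> simp [hl]
  rw [h1]
  simp only [SuppFam, PairFam, Sum.elim_inl, Sum.elim_inr, Finset.mem_singleton, aeval_X,
    Subtype.forall, ite_mul, one_mul, zero_mul, Finset.sum_ite_eq', Finset.mem_univ, if_true]
  constructor
  · rintro ⟨⟨a, b, c⟩, d⟩
    exact ⟨a, c, d, by simp⟩
  · rintro ⟨a, c, d, -⟩
    exact ⟨⟨a, fun l hl => if_neg hl, c⟩, d⟩

lemma q_supp [Finite σ] (hP : Kit P) (hS : Homog S) (E : Finset V)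
    (hE : ∀ J ⊆ E, J.Nonempty → Q P (PairFam S J)) :
    ∀ n : ℕ, ∀ p ∈ E, ∀ T₀ ⊆ E, T₀.card = n → p ∉ T₀ → Q P (SuppFam S p T₀ ∅) := by
  intro n
  induction n using Nat.strong_induction_on with
  | _ n ih =>
  intro p hp T₀ hT hn hpT
  have hpJ : p ∈ insert p T₀ := Finset.mem_insert_self _ _
  have hJ : insert p T₀ ⊆ E := Finset.insert_subset hp hT
  have hJn : (insert p T₀).Nonempty := ⟨p, hpJ⟩
  have hW := hE _ hJ hJn
  have h1 : ∀ T : Finset V, T ⊆ T₀ → Q P (fun K _ _ (x : (σ ⊕ V) ⊕ V → K) =>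
      PairFam S (insert p T₀) K x ∧ ∀ l ∈ T, x (Sum.inl (Sum.inr l)) = 0) := by
    intro T
    induction T using Finset.induction with
    | empty =>
      intro _
      exact q_congr (fun K _ _ x => by simp) hW
    | insert q T hq ihT =>
      intro hsub
      have hT' : T ⊆ T₀ := (Finset.subset_insert q T).trans hsub
      have hq0 : q ∈ T₀ := hsub (Finset.mem_insert_self _ _)
      have hlt : T.card < n := by
        rw [← hn]
        refine Finset.card_lt_card ⟨hT', fun h => hq (h hq0)⟩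
      have h2 : Q P (SuppFam S q T ∅) := ih T.card hlt q (hT hq0) T (hT'.trans hT) rfl hq
      have h3 : Q P (CF S (insert p T₀) T q) :=
        q_cf hP hS (Finset.mem_insert_of_mem hq0) (rep_of_q hW) h2
      have h4 := hP.closed _ (X (Sum.inl (Sum.inr q))) (ihT hT')
        (q_congr (fun K _ _ x => by simp only [CF, aeval_X]) h3)
      refine q_congr (fun K _ _ x => ?_) h4
      simp only [aeval_X, Finset.mem_insert, forall_eq_or_imp]
      tauto
  have h5 : Q P (CF S (insert p T₀) T₀ p) := by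
    refine q_congr (fun K _ _ x => ?_) (h1 T₀ (Finset.Subset.refl _))
    refine ⟨fun h => ⟨h, fun h0 => ?_⟩, fun h => h.1⟩
    obtain ⟨⟨a, b, c⟩, d⟩ := h
    rw [Finset.sum_eq_zero] at c
    · exact zero_ne_one c
    · intro l _
      by_cases hl : l ∈ insert p T₀
      · rcases Finset.mem_insert.1 hl with rfl | hl
        · rw [h0, mul_zero]
        · rw [d l hl, mul_zero]
      · rw [b l hl, zero_mul]
  refine q_supp_of hP hS hpJ (rep_supp (rep_of_q (hE {p} ?_ ⟨p, Finset.mem_singleton_self p⟩))) h5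
  exact Finset.singleton_subset_iff.2 hp

end maps

theorem t_PSupp : PSupp := by
  intro R _ P hP σ V _ _ _ S hS E hE p hp T₀ hT₀ hpT T₁ hT₁
  revert T₀
  induction T₁ using Finset.induction with
  | empty =>
    intro T₀ hT₀ hpT
    exact q_supp hP hS E hE _ p hp T₀ hT₀ rfl hpT
  | insert l T hl ih =>
    intro T₀ hT₀ hpT
    have hT : T ⊆ E := (Finset.subset_insert l T).trans hT₁
    have hlE : l ∈ E := hT₁ (Finset.mem_insert_self _ _)
    by_cases h : l = p
    · refine q_congr (fun K _ _ x => ?_) (ih hT T₀ hT₀ hpT)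
      simp only [SuppFam, Finset.mem_insert, forall_eq_or_imp]
      constructor
      · rintro ⟨a, b, c, d⟩
        refine ⟨a, b, c, ?_, d⟩
        rw [h, b]
        exact one_ne_zero
      · rintro ⟨a, b, c, _, d⟩
        exact ⟨a, b, c, d⟩
    · have h1 := ih hT T₀ hT₀ hpT
      have h2 := ih hT (insert l T₀) (Finset.insert_subset hlE hT₀) (by
        rw [Finset.mem_insert]
        rintro (h3 | h3)
        · exact h h3.symm
        · exact hpT h3)
      refine q_congr (fun K _ _ x => ?_) (hP.opened _ (X (Sum.inr l)) h1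
        (q_congr (fun K _ _ x => ?_) h2))
      · simp only [SuppFam, aeval_X, Finset.mem_insert, forall_eq_or_imp]
        tauto
      · simp only [SuppFam, aeval_X, Finset.mem_insert, forall_eq_or_imp]
        tauto

end Run7.h611.GH
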